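import Pool.Agent.Helper93.T53.StD

/-!
# Levels `5·3^n`, module Tri: triangular system of symbols modulo 3

Models: `Pool/Agent/Helper33/TH3/M_Tri.lean`, `Pool/Agent/Helper22/W3/M_Tri.lean`.
-/

set_option autoImplicit false

namespace Pool.Agent.Helper22.T53

open Pool.Agent.Helper14.CV (Homog EqC act Tl StFar StFex)
open Pool.Agent.Helper28.WK (Tw evw)
open Pool.Agent.Helper78.W3 (tr Fn3 Tm opL op3 mulL negL Wd3 dX dY oD oN Lw sS M5 bb3 S3PlA S3Trm S3Low0 S3Nf S3Exp S3Lw1 S3Bb)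
open Pool.Agent.Helper28.T5 (HTy SymH)
open Pool.Agent.Helper83.T5C (SHHk SHHkS LBH)
open Pool.Agent.Helper93.TLE (DDE)
open Pool.Agent.Helper93.T53

section comm

variable {E : Type} [Ring E]

private theorem lo_Tri (D Y : E) (h : D * Y = Y * D) (h3 : ∀ x : E, x + x + x = 0) :
    D ^ 3 * Y + D ^ 2 * Y ^ 2 + D * Y ^ 3 = D * Y * (D - Y) ^ 2 := by
  have h' : ∀ z, Y * (D * z) = D * (Y * z) := by
    intro z
    rw [← mul_assoc, ← h, mul_assoc]
  have h1 := h3 (D * (D * (Y * Y)))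
  rw [← sub_eq_zero]
  have h2 : D ^ 3 * Y + D ^ 2 * Y ^ 2 + D * Y ^ 3 - D * Y * (D - Y) ^ 2 =
      D * (D * (Y * Y)) + D * (D * (Y * Y)) + D * (D * (Y * Y)) := by
    simp only [pow_succ, pow_zero, one_mul, mul_sub, sub_mul, mul_assoc, ← h, h']
    abel
  rw [h2, h1]

private theorem reorder_Tri (A D Y : E) (h : D * Y = Y * D) (hAD : Commute A D)
    (hAY : Commute A Y) (h3 : ∀ x : E, x + x + x = 0) (i j : ℕ) :
    (D * Y) ^ i * (D ^ 3 * Y + D ^ 2 * Y ^ 2 + D * Y ^ 3) ^ j * A =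
      A * (D - Y) ^ (2 * j) * (D ^ (i + j) * Y ^ (i + j)) := by
  have hDY : Commute D Y := h
  have hDS : Commute D (D - Y) := (Commute.refl D).sub_right hDY
  have hYS : Commute Y (D - Y) := hDY.symm.sub_right (Commute.refl Y)
  have hQS : Commute (D * Y) (D - Y) := hDS.mul_left hYS
  have hAS : Commute A (D - Y) := hAD.sub_right hAY
  have hAQ : Commute A (D * Y) := hAD.mul_right hAY
  rw [lo_Tri D Y h h3, (hQS.pow_right 2).mul_pow, ← pow_mul]
  have h1 : (D * Y) ^ (i + j) * (D - Y) ^ (2 * j) = (D - Y) ^ (2 * j) * (D * Y) ^ (i + j) :=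
    (hQS.pow_pow _ _).eq
  have h2 : (D - Y) ^ (2 * j) * (D * Y) ^ (i + j) * A = A * ((D - Y) ^ (2 * j) * (D * Y) ^ (i + j)) :=
    ((hAS.pow_right _).mul_right (hAQ.pow_right _)).eq.symm
  calc (D * Y) ^ i * ((D * Y) ^ j * (D - Y) ^ (2 * j)) * A
      = (D * Y) ^ (i + j) * (D - Y) ^ (2 * j) * A := by
        rw [pow_add]
        simp only [mul_assoc]
    _ = A * (D - Y) ^ (2 * j) * (D ^ (i + j) * Y ^ (i + j)) := by
        rw [h1, h2, hDY.mul_pow]
        simp only [mul_assoc]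

end comm

section main

variable {r s : ℕ}

private theorem dy_pow_Tri (hBb : S3Bb) (p q m : ℕ) (hp : p < 3 ^ r) (hq : m + q < 3 ^ s) :
    (dY ^ m : Module.End (ZMod 3) (Fn3 (3 ^ r) (3 ^ s))) (bb3 p (m + q)) = bb3 p q := by
  induction m with
  | zero =>
    rw [pow_zero, zero_add]
    rfl
  | succ m ih =>
    have h1 : m + 1 + q = (m + q) + 1 := by ring
    rw [pow_succ, Module.End.mul_apply, h1,
      (hBb r s).2.2.1 p (m + q) hp (by omega)]
    exact ih (by omega)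

private theorem dx_pow_Tri (hBb : S3Bb) (p q m : ℕ) (hq : q < 3 ^ s) (hp : m + p < 3 ^ r) :
    (dX ^ m : Module.End (ZMod 3) (Fn3 (3 ^ r) (3 ^ s))) (bb3 (m + p) q) = bb3 p q := by
  induction m with
  | zero =>
    rw [pow_zero, zero_add]
    rfl
  | succ m ih =>
    have h1 : m + 1 + p = (m + p) + 1 := by ring
    rw [pow_succ, Module.End.mul_apply, h1,
      (hBb r s).2.1 (m + p) q (by omega) hq]
    exact ih (by omega)

private theorem dy_kill_Tri (hBb : S3Bb) (p q m : ℕ) (hp : p < 3 ^ r) (hq : q < 3 ^ s)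
    (h : q < m) :
    (dY ^ m : Module.End (ZMod 3) (Fn3 (3 ^ r) (3 ^ s))) (bb3 p q) = 0 := by
  obtain ⟨c, rfl⟩ : ∃ c, m = c + (1 + q) := ⟨m - (1 + q), by omega⟩
  rw [pow_add, pow_add, Module.End.mul_apply, Module.End.mul_apply]
  have h1 := dy_pow_Tri (r := r) (s := s) hBb p 0 q hp (by omega)
  rw [add_zero] at h1
  rw [h1, pow_one, (hBb r s).2.2.2.2.1 p hp, map_zero]

private theorem sum_pow_Tri (hBb : S3Bb) (p m : ℕ) (hp : m + p < 3 ^ r) (hs : 0 < 3 ^ s) :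
    ((dX - dY) ^ m : Module.End (ZMod 3) (Fn3 (3 ^ r) (3 ^ s))) (bb3 (m + p) 0) = bb3 p 0 := by
  induction m with
  | zero =>
    rw [pow_zero, zero_add]
    rfl
  | succ m ih =>
    have h1 : m + 1 + p = (m + p) + 1 := by ring
    rw [pow_succ, Module.End.mul_apply, h1, LinearMap.sub_apply,
      (hBb r s).2.1 (m + p) 0 (by omega) hs,
      (hBb r s).2.2.2.2.1 (m + p + 1) (by omega), sub_zero]
    exact ih (by omega)

private theorem low_pow_Tri (hLow0 : S3Low0) (O : Module.End (ZMod 3) (Fn3 (3 ^ r) (3 ^ s)))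
    (k : ℤ) (h : Lw O k) (i : ℕ) : Lw (O ^ i) ((i : ℤ) * k) := by
  induction i with
  | zero =>
    rw [pow_zero, Nat.cast_zero, zero_mul]
    exact (hLow0 r s).2.2.2.2.2.1
  | succ i ih =>
    have h1 : ((i + 1 : ℕ) : ℤ) * k = (i : ℤ) * k + k := by
      push_cast
      ring
    rw [pow_succ, h1]
    exact (hLow0 r s).1 _ _ _ _ ih h

private theorem three_Tri (x : Module.End (ZMod 3) (Fn3 (3 ^ r) (3 ^ s))) : x + x + x = 0 := by
  have h : (1 : ZMod 3) + 1 + 1 = 0 := by decide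
  have h2 : ((1 : ZMod 3) + 1 + 1) • x = x + x + x := by
    rw [add_smul, add_smul, one_smul]
  rw [← h2, h, zero_smul]

private theorem neg_Tri (x : Module.End (ZMod 3) (Fn3 (3 ^ r) (3 ^ s))) :
    (-1 : ZMod 3) • x = -x := by
  have h := neg_smul (1 : ZMod 3) x
  rw [one_smul] at h
  exact h

private theorem low_sub_Tri (hLow0 : S3Low0) (O P : Module.End (ZMod 3) (Fn3 (3 ^ r) (3 ^ s)))
    (k : ℤ) (h : Lw O k) (h' : Lw P k) : Lw (O - P) k := by
  have h2 : O - P = O + (-1 : ZMod 3) • P := by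
    rw [neg_Tri, sub_eq_add_neg]
  rw [h2]
  exact (hLow0 r s).2.1 _ _ _ h ((hLow0 r s).2.2.1 _ _ _ h')

private theorem low_mon_Tri (hLow0 : S3Low0) (k l : ℕ) (d : ℤ) (hd : (k : ℤ) + l = d) :
    Lw (dX ^ k * dY ^ l : Module.End (ZMod 3) (Fn3 (3 ^ r) (3 ^ s))) d := by
  have h1 := low_pow_Tri hLow0 _ _ (hLow0 r s).2.2.2.2.2.2.1 k
  have h2 := low_pow_Tri hLow0 _ _ (hLow0 r s).2.2.2.2.2.2.2.1 l
  rw [mul_one] at h1 h2
  rw [← hd]
  exact (hLow0 r s).1 _ _ _ _ h1 h2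

private theorem low_dy2_Tri (hLow0 : S3Low0) :
    Lw (dY ^ 2 : Module.End (ZMod 3) (Fn3 (3 ^ r) (3 ^ s))) 2 := by
  have h := low_mon_Tri (r := r) (s := s) hLow0 0 2 2 (by norm_num)
  rwa [pow_zero, one_mul] at h

private theorem low_dx2_Tri (hLow0 : S3Low0) :
    Lw (dX ^ 2 : Module.End (ZMod 3) (Fn3 (3 ^ r) (3 ^ s))) 2 := by
  have h := low_mon_Tri (r := r) (s := s) hLow0 2 0 2 (by norm_num)
  rwa [pow_zero, mul_one] at h

private theorem low_Qo_Tri (hLow0 : S3Low0) :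
    Lw (QoT : Module.End (ZMod 3) (Fn3 (3 ^ r) (3 ^ s))) 2 :=
  (hLow0 r s).1 _ _ _ _ (hLow0 r s).2.2.2.2.2.2.1 (hLow0 r s).2.2.2.2.2.2.2.1

private theorem low_Lo_Tri (hLow0 : S3Low0) :
    Lw (LoT : Module.End (ZMod 3) (Fn3 (3 ^ r) (3 ^ s))) 4 := by
  have h1 : Lw (dX ^ 3 * dY : Module.End (ZMod 3) (Fn3 (3 ^ r) (3 ^ s))) 4 := by
    have h := low_mon_Tri (r := r) (s := s) hLow0 3 1 4 (by norm_num)
    rwa [pow_one] at h
  have h2 : Lw (dX * dY ^ 3 : Module.End (ZMod 3) (Fn3 (3 ^ r) (3 ^ s))) 4 := by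
    have h := low_mon_Tri (r := r) (s := s) hLow0 1 3 4 (by norm_num)
    rwa [pow_one] at h
  exact (hLow0 r s).2.1 _ _ _ ((hLow0 r s).2.1 _ _ _ h1
    (low_mon_Tri hLow0 2 2 4 (by norm_num))) h2

private theorem low_all_Tri (hLow0 : S3Low0) (A : Module.End (ZMod 3) (Fn3 (3 ^ r) (3 ^ s))) (k : ℤ)
    (hA : Lw A k) (i j : ℕ) :
    Lw (QoT ^ i * LoT ^ j * A : Module.End (ZMod 3) (Fn3 (3 ^ r) (3 ^ s)))
      ((i : ℤ) * 2 + (j : ℤ) * 4 + k) :=
  (hLow0 r s).1 _ _ _ _ ((hLow0 r s).1 _ _ _ _ (low_pow_Tri hLow0 _ _ (low_Qo_Tri hLow0) i)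
    (low_pow_Tri hLow0 _ _ (low_Lo_Tri hLow0) j)) hA

private theorem form_Tri (hLow0 : S3Low0) (A : Module.End (ZMod 3) (Fn3 (3 ^ r) (3 ^ s)))
    (hAD : Commute A dX) (hAY : Commute A dY) (i j : ℕ) :
    (QoT ^ i * LoT ^ j * A : Module.End (ZMod 3) (Fn3 (3 ^ r) (3 ^ s))) =
      A * (dX - dY) ^ (2 * j) * (dX ^ (i + j) * dY ^ (i + j)) :=
  reorder_Tri _ _ _ (hLow0 r s).2.2.2.2.2.2.2.2.1 hAD hAY three_Tri i j


/-- The operator of a list of monomials. -/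
private def opp (L : List (ZMod 3 × ℕ × ℕ)) : Module.End (ZMod 3) (Fn3 (3 ^ r) (3 ^ s)) :=
  (L.map fun t => t.1 • (dX ^ t.2.1 * dY ^ t.2.2 : Module.End (ZMod 3) (Fn3 (3 ^ r) (3 ^ s)))).sum

private theorem opp_nil : (opp [] : Module.End (ZMod 3) (Fn3 (3 ^ r) (3 ^ s))) = 0 := by simp [opp]

private theorem opp_cons (t : ZMod 3 × ℕ × ℕ) (L : List (ZMod 3 × ℕ × ℕ)) :
    (opp (t :: L) : Module.End (ZMod 3) (Fn3 (3 ^ r) (3 ^ s))) = t.1 • (dX ^ t.2.1 * dY ^ t.2.2) + opp L := by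
  simp [opp]

private theorem opp_comm (A : Module.End (ZMod 3) (Fn3 (3 ^ r) (3 ^ s))) (h1 : Commute A dX) (h2 : Commute A dY)
    (L : List (ZMod 3 × ℕ × ℕ)) : Commute A (opp L) := by
  induction L with
  | nil => rw [opp_nil]; exact Commute.zero_right _
  | cons t L ih =>
    rw [opp_cons]
    exact (((h1.pow_right _).mul_right (h2.pow_right _)).smul_right _).add_right ih

private theorem lw_opp (hl : S3Low0) (L : List (ZMod 3 × ℕ × ℕ)) (k : ℕ) (h : ∀ t ∈ L, t.2.1 + t.2.2 = k) :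
    Lw (opp L : Module.End (ZMod 3) (Fn3 (3 ^ r) (3 ^ s))) (k : ℤ) := by
  induction L with
  | nil =>
    rw [opp_nil]
    intro d F _
    rw [LinearMap.zero_apply]
    exact Submodule.zero_mem _
  | cons t L ih =>
    rw [opp_cons]
    have h1 := h t List.mem_cons_self
    refine (hl r s).2.1 _ _ _ ((hl r s).2.2.1 _ _ _ (low_mon_Tri hl _ _ _ ?_))
      (ih fun x hx => h x (List.mem_cons_of_mem _ hx))
    rw [← h1]
    push_cast
    ring

private theorem mono_eq (hl : S3Low0) (a : ZMod 3) (p q j m : ℕ) :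
    ((a • (dX ^ p * dY ^ q)) * (dX - dY) ^ (2 * j) * (dX ^ m * dY ^ m) :
      Module.End (ZMod 3) (Fn3 (3 ^ r) (3 ^ s))) =
      (a • (dX ^ p * (dX - dY) ^ (2 * j) * dX ^ m)) * dY ^ (m + q) := by
  have hDY : Commute (dX : Module.End (ZMod 3) (Fn3 (3 ^ r) (3 ^ s))) dY := (hl r s).2.2.2.2.2.2.2.2.1
  have hYS : Commute (dY ^ q : Module.End (ZMod 3) (Fn3 (3 ^ r) (3 ^ s))) ((dX - dY) ^ (2 * j)) :=
    (hDY.symm.sub_right (Commute.refl dY)).pow_pow _ _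
  have hYX : Commute (dY ^ q : Module.End (ZMod 3) (Fn3 (3 ^ r) (3 ^ s))) (dX ^ m) := hDY.symm.pow_pow _ _
  rw [smul_mul_assoc, smul_mul_assoc, smul_mul_assoc]
  congr 1
  rw [pow_add, mul_assoc (dX ^ p) (dY ^ q), hYS.eq, ← mul_assoc (dX ^ p), mul_assoc _ (dY ^ q),
    ← mul_assoc (dY ^ q), hYX.eq, mul_assoc (dX ^ m), (Commute.pow_pow (Commute.refl dY) q m).eq]
  simp only [mul_assoc]

private theorem killL (hl : S3Low0) (hb : S3Bb) (L : List (ZMod 3 × ℕ × ℕ)) (j m al be : ℕ) (hal : al < 3 ^ r)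
    (hbe : be < 3 ^ s) (h : ∀ t ∈ L, t.1 = 0 ∨ be < m + t.2.2) :
    (opp L * (dX - dY) ^ (2 * j) * (dX ^ m * dY ^ m) :
      Module.End (ZMod 3) (Fn3 (3 ^ r) (3 ^ s))) (bb3 al be) = 0 := by
  induction L with
  | nil => rw [opp_nil, zero_mul, zero_mul, LinearMap.zero_apply]
  | cons t L ih =>
    rw [opp_cons, add_mul, add_mul, LinearMap.add_apply, ih fun x hx => h x (List.mem_cons_of_mem _ hx), add_zero]
    rcases h t List.mem_cons_self with h1 | h1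
    · rw [h1, zero_smul, zero_mul, zero_mul, LinearMap.zero_apply]
    · rw [mono_eq hl, Module.End.mul_apply, dy_kill_Tri hb al be _ hal hbe h1, map_zero]

private theorem bb00_Tri : ((bb3 0 0 : Fn3 (3 ^ r) (3 ^ s)) 0 0) = 1 := by simp [bb3]

private theorem valL (hl : S3Low0) (hb : S3Bb) (L : List (ZMod 3 × ℕ × ℕ)) (j m p0 q0 : ℕ)
    (hal : m + (2 * j + p0) < 3 ^ r) (hbe : m + q0 < 3 ^ s)
    (h : ∀ t ∈ L, t.1 = 0 ∨ (t.2.1 + t.2.2 = p0 + q0 ∧ q0 ≤ t.2.2)) :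
    ((opp L * (dX - dY) ^ (2 * j) * (dX ^ m * dY ^ m) :
      Module.End (ZMod 3) (Fn3 (3 ^ r) (3 ^ s))) (bb3 (m + (2 * j + p0)) (m + q0))) 0 0 =
      (L.map fun t => if t.2.2 = q0 then t.1 else 0).sum := by
  have hs0 : 0 < 3 ^ s := by positivity
  induction L with
  | nil =>
    rw [opp_nil, zero_mul, zero_mul, LinearMap.zero_apply]
    rfl
  | cons t L ih =>
    rw [opp_cons, add_mul, add_mul, LinearMap.add_apply, Pi.add_apply, Pi.add_apply,
      ih fun x hx => h x (List.mem_cons_of_mem _ hx), List.map_cons, List.sum_cons]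
    congr 1
    rcases h t List.mem_cons_self with h1 | ⟨h1, h2⟩
    · rw [h1, zero_smul, zero_mul, zero_mul, LinearMap.zero_apply]
      simp
    · rw [mono_eq hl, Module.End.mul_apply]
      by_cases h3 : t.2.2 = q0
      · have h4 : t.2.1 = p0 := by omega
        rw [if_pos h3, h3, h4]
        have h5 := dy_pow_Tri (r := r) (s := s) hb (m + (2 * j + p0)) 0 (m + q0) hal (by omega)
        rw [add_zero] at h5
        have h6 := dx_pow_Tri (r := r) (s := s) hb 0 0 p0 hs0 (by omega)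
        rw [add_zero] at h6
        rw [h5, LinearMap.smul_apply, Module.End.mul_apply, Module.End.mul_apply,
          dx_pow_Tri hb (2 * j + p0) 0 m hs0 hal, sum_pow_Tri hb p0 (2 * j) (by omega) hs0, h6,
          Pi.smul_apply, Pi.smul_apply, bb00_Tri, smul_eq_mul, mul_one]
      · rw [if_neg h3, dy_kill_Tri hb _ _ _ hal hbe (by omega), map_zero]
        rfl

/-- The form of `phT c` on multiples of one function. -/
private def Lf (c : ℕ) (u : Fin 9 → ZMod 3) : List (ZMod 3 × ℕ × ℕ) :=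
  if c = 0 then [(-u 0 + (u 1 + u 4) + u 3, 2, 0), (u 1 + u 4 + u 2 - u 3, 1, 1), (u 1 + u 4 - u 2 + u 3, 0, 2)]
  else if c = 1 then [(u 1 + u 2 + u 3 + u 4, 1, 0), (-(u 1 + u 2 + u 3 + u 4), 0, 1)]
  else if c = 2 then [(-(u 1 + u 4), 1, 0), (-(u 1 + u 4) - (u 5 + u 6), 0, 1)]
  else if c = 3 then [(u 1 + u 4 - u 2 - u 3, 3, 0), (-(u 1 + u 4) - (u 2 + u 3) + (u 5 + u 6), 2, 1),
    (u 1 + u 4 + (u 2 + u 3) - (u 5 + u 6), 1, 2), (u 2 + u 3 - (u 5 + u 6), 0, 3)]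
  else if c = 4 then [(u 0 - u 1 - u 2 - u 4 - u 5, 0, 0)]
  else [(u 1 + u 2 - u 3 + u 4, 0, 0)]

/-- The form for `c = 3`, `i ≥ 1`. -/
private def L3 (u : Fin 9 → ZMod 3) : List (ZMod 3 × ℕ × ℕ) :=
  [(u 1 + u 4 - u 2 - u 3 + ((u 1 + u 2 + u 3 + u 4) + (u 1 + u 4)), 3, 0),
    (-(u 1 + u 4) - (u 2 + u 3) + (u 5 + u 6) + (((u 1 + u 2 + u 3 + u 4) + (u 1 + u 4)) +
      (-(u 1 + u 2 + u 3 + u 4) + (u 1 + u 4) + (u 5 + u 6))), 2, 1),
    (u 1 + u 4 + (u 2 + u 3) - (u 5 + u 6) + (((u 1 + u 2 + u 3 + u 4) + (u 1 + u 4)) +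
      (-(u 1 + u 2 + u 3 + u 4) + (u 1 + u 4) + (u 5 + u 6))), 1, 2),
    (u 2 + u 3 - (u 5 + u 6) + (-(u 1 + u 2 + u 3 + u 4) + (u 1 + u 4) + (u 5 + u 6)), 0, 3)]

private def Lv (c i : ℕ) (u : Fin 9 → ZMod 3) : List (ZMod 3 × ℕ × ℕ) :=
  if c = 3 ∧ 1 ≤ i then L3 u else Lf c u

private theorem ph_smul (c : ℕ) (hc : c ≤ 5) (u : Fin 9 → ZMod 3) (g : Fn3 (3 ^ r) (3 ^ s)) :
    phT c (fun f => u f • g) = (opp (Lf c u) : Module.End (ZMod 3) (Fn3 (3 ^ r) (3 ^ s))) g := by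
  interval_cases c
  all_goals
    simp only [phT, Lf, opp, List.map_cons, List.map_nil, List.sum_cons, List.sum_nil, if_true, if_false,
      one_ne_zero, OfNat.ofNat_ne_zero, OfNat.ofNat_ne_one, Nat.reduceEqDiff, OfNat.one_ne_ofNat, OfNat.zero_ne_ofNat,
      reduceIte,
      map_add, map_smul, LinearMap.add_apply, LinearMap.sub_apply, LinearMap.smul_apply, LinearMap.neg_apply, add_zero,
      pow_zero, pow_one, mul_one, one_mul, Module.End.one_apply, LinearMap.zero_apply]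
    module

private theorem sq_Tri (hl : S3Low0) (a b : ZMod 3) :
    ((a • dX + b • dY) * (dX - dY) ^ 2 : Module.End (ZMod 3) (Fn3 (3 ^ r) (3 ^ s))) =
      a • dX ^ 3 + (a + b) • (dX ^ 2 * dY) + (a + b) • (dX * dY ^ 2) + b • dY ^ 3 := by
  have hDY : (dX * dY : Module.End (ZMod 3) (Fn3 (3 ^ r) (3 ^ s))) = dY * dX := (hl r s).2.2.2.2.2.2.2.2.1
  have h1 : ((dX - dY) ^ 2 : Module.End (ZMod 3) (Fn3 (3 ^ r) (3 ^ s))) = dX ^ 2 + dX * dY + dY ^ 2 := by
    have h3 := three_Tri (r := r) (s := s) (dX * dY)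
    rw [pow_two, sub_mul, mul_sub, mul_sub, ← hDY, ← pow_two, ← pow_two]
    have e : (dX ^ 2 - dX * dY - (dX * dY - dY ^ 2) : Module.End (ZMod 3) (Fn3 (3 ^ r) (3 ^ s))) =
        dX ^ 2 + dX * dY + dY ^ 2 - (dX * dY + dX * dY + dX * dY) := by abel
    rw [e, h3, sub_zero]
  have h2 : (dX * (dX ^ 2 + dX * dY + dY ^ 2) : Module.End (ZMod 3) (Fn3 (3 ^ r) (3 ^ s))) =
      dX ^ 3 + dX ^ 2 * dY + dX * dY ^ 2 := by
    rw [mul_add, mul_add, ← pow_succ', ← mul_assoc, ← pow_two]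
  have h4 : (dY * (dX ^ 2 + dX * dY + dY ^ 2) : Module.End (ZMod 3) (Fn3 (3 ^ r) (3 ^ s))) =
      dX ^ 2 * dY + dX * dY ^ 2 + dY ^ 3 := by
    have h5 : (dY * dX ^ 2 : Module.End (ZMod 3) (Fn3 (3 ^ r) (3 ^ s))) = dX ^ 2 * dY :=
      (Commute.pow_right (show Commute dY dX from hDY.symm) 2).eq
    rw [mul_add, mul_add, h5, ← mul_assoc dY dX dY, ← hDY, mul_assoc dX dY dY, ← pow_two, ← pow_succ']
  rw [h1, add_mul, smul_mul_assoc, smul_mul_assoc, h2, h4]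
  module

private theorem opp3 (hl : S3Low0) (u : Fin 9 → ZMod 3) :
    (opp (L3 u) : Module.End (ZMod 3) (Fn3 (3 ^ r) (3 ^ s))) =
      opp (Lf 3 u) + (opp (Lf 1 u) - opp (Lf 2 u)) * (dX - dY) ^ 2 := by
  have h1 : (opp (Lf 1 u) - opp (Lf 2 u) : Module.End (ZMod 3) (Fn3 (3 ^ r) (3 ^ s))) =
      ((u 1 + u 2 + u 3 + u 4) + (u 1 + u 4)) • dX +
        (-(u 1 + u 2 + u 3 + u 4) + (u 1 + u 4) + (u 5 + u 6)) • dY := by
    simp only [Lf, opp, List.map_cons, List.map_nil, List.sum_cons, List.sum_nil, if_true, if_false,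
      one_ne_zero, OfNat.ofNat_ne_zero, OfNat.ofNat_ne_one, Nat.reduceEqDiff, reduceIte, add_zero,
      pow_zero, pow_one, mul_one, one_mul]
    module
  rw [h1, sq_Tri hl]
  simp only [Lf, L3, opp, List.map_cons, List.map_nil, List.sum_cons, List.sum_nil, if_true, if_false,
      one_ne_zero, OfNat.ofNat_ne_zero, OfNat.ofNat_ne_one, Nat.reduceEqDiff, reduceIte, add_zero,
      pow_zero, pow_one, mul_one, one_mul]
  module

private theorem ph_sub (c : ℕ) (F F' : Fin 9 → Fn3 (3 ^ r) (3 ^ s)) :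
    phT c F - phT c F' = phT c (fun f => F f - F' f) := by
  unfold phT
  split_ifs <;> simp only [map_add, map_sub] <;> abel

private theorem ph_low (hl : S3Low0) (c : ℕ) (hc : c ≤ 5) (d : ℤ) (E : Fin 9 → Fn3 (3 ^ r) (3 ^ s))
    (hE : ∀ f, E f ∈ Wd3 d) : phT c E ∈ (Wd3 (d - (aT c : ℤ)) : Submodule (ZMod 3) (Fn3 (3 ^ r) (3 ^ s))) := by
  have lx2 : Lw (dX ^ 2 : Module.End (ZMod 3) (Fn3 (3 ^ r) (3 ^ s))) ((2 : ℕ) : ℤ) := by
    have h := lw_opp (r := r) (s := s) hl [(1, 2, 0)] 2 (by simp)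
    simpa [opp] using h
  have l1 : Lw (dX ^ 2 + dX * dY + dY ^ 2 : Module.End (ZMod 3) (Fn3 (3 ^ r) (3 ^ s))) ((2 : ℕ) : ℤ) := by
    have h := lw_opp (r := r) (s := s) hl [(1, 2, 0), (1, 1, 1), (1, 0, 2)] 2 (by simp)
    simpa [opp, add_assoc] using h
  have l2 : Lw (dX * dY - dY ^ 2 : Module.End (ZMod 3) (Fn3 (3 ^ r) (3 ^ s))) ((2 : ℕ) : ℤ) := by
    have h := lw_opp (r := r) (s := s) hl [(1, 1, 1), (-1, 0, 2)] 2 (by simp)
    simpa [opp, sub_eq_add_neg, neg_Tri] using h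
  have l3 : Lw (dX ^ 2 - dX * dY + dY ^ 2 : Module.End (ZMod 3) (Fn3 (3 ^ r) (3 ^ s))) ((2 : ℕ) : ℤ) := by
    have h := lw_opp (r := r) (s := s) hl [(1, 2, 0), (-1, 1, 1), (1, 0, 2)] 2 (by simp)
    simpa [opp, sub_eq_add_neg, add_assoc, neg_Tri] using h
  have l4 : Lw (dX - dY : Module.End (ZMod 3) (Fn3 (3 ^ r) (3 ^ s))) ((1 : ℕ) : ℤ) := by
    have h := lw_opp (r := r) (s := s) hl [(1, 1, 0), (-1, 0, 1)] 1 (by simp)
    simpa [opp, sub_eq_add_neg, neg_Tri] using h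
  have l5 : Lw (dX + dY : Module.End (ZMod 3) (Fn3 (3 ^ r) (3 ^ s))) ((1 : ℕ) : ℤ) := by
    have h := lw_opp (r := r) (s := s) hl [(1, 1, 0), (1, 0, 1)] 1 (by simp)
    simpa [opp] using h
  have l6 : Lw (dY : Module.End (ZMod 3) (Fn3 (3 ^ r) (3 ^ s))) ((1 : ℕ) : ℤ) := by
    have h := lw_opp (r := r) (s := s) hl [(1, 0, 1)] 1 (by simp)
    simpa [opp] using h
  have l7 : Lw (dX ^ 3 - dX ^ 2 * dY + dX * dY ^ 2 : Module.End (ZMod 3) (Fn3 (3 ^ r) (3 ^ s))) ((3 : ℕ) : ℤ) := by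
    have h := lw_opp (r := r) (s := s) hl [(1, 3, 0), (-1, 2, 1), (1, 1, 2)] 3 (by simp)
    simpa [opp, sub_eq_add_neg, add_assoc, neg_Tri] using h
  have l8 : Lw (-dX ^ 3 - dX ^ 2 * dY + dX * dY ^ 2 + dY ^ 3 : Module.End (ZMod 3) (Fn3 (3 ^ r) (3 ^ s)))
      ((3 : ℕ) : ℤ) := by
    have h := lw_opp (r := r) (s := s) hl [(-1, 3, 0), (-1, 2, 1), (1, 1, 2), (1, 0, 3)] 3 (by simp)
    simpa [opp, sub_eq_add_neg, add_assoc, neg_Tri] using h
  have l9 : Lw (dX ^ 2 * dY - dX * dY ^ 2 - dY ^ 3 : Module.End (ZMod 3) (Fn3 (3 ^ r) (3 ^ s))) ((3 : ℕ) : ℤ) := by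
    have h := lw_opp (r := r) (s := s) hl [(1, 2, 1), (-1, 1, 2), (-1, 0, 3)] 3 (by simp)
    simpa [opp, sub_eq_add_neg, add_assoc, neg_Tri] using h
  interval_cases c
  · have e : (aT 0 : ℕ) = 2 := rfl
    rw [e]
    exact Submodule.add_mem _ (Submodule.add_mem _ (Submodule.add_mem _ (Submodule.neg_mem _ (lx2 _ _ (hE 0)))
      (l1 _ _ (Submodule.add_mem _ (hE 1) (hE 4)))) (l2 _ _ (hE 2))) (l3 _ _ (hE 3))
  · have e : (aT 1 : ℕ) = 1 := rfl
    rw [e]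
    exact l4 _ _ (Submodule.add_mem _ (Submodule.add_mem _ (Submodule.add_mem _ (hE 1) (hE 2)) (hE 3)) (hE 4))
  · have e : (aT 2 : ℕ) = 1 := rfl
    rw [e]
    exact Submodule.sub_mem _ (Submodule.neg_mem _ (l5 _ _ (Submodule.add_mem _ (hE 1) (hE 4))))
      (l6 _ _ (Submodule.add_mem _ (hE 5) (hE 6)))
  · have e : (aT 3 : ℕ) = 3 := rfl
    rw [e]
    exact Submodule.add_mem _ (Submodule.add_mem _ (l7 _ _ (Submodule.add_mem _ (hE 1) (hE 4)))
      (l8 _ _ (Submodule.add_mem _ (hE 2) (hE 3)))) (l9 _ _ (Submodule.add_mem _ (hE 5) (hE 6)))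
  · have e : (aT 4 : ℕ) = 0 := rfl
    rw [e, Nat.cast_zero, sub_zero]
    exact Submodule.sub_mem _ (Submodule.sub_mem _ (Submodule.sub_mem _ (Submodule.sub_mem _ (hE 0) (hE 1)) (hE 2))
      (hE 4)) (hE 5)
  · have e : (aT 5 : ℕ) = 0 := rfl
    rw [e, Nat.cast_zero, sub_zero]
    exact Submodule.add_mem _ (Submodule.sub_mem _ (Submodule.add_mem _ (hE 1) (hE 2)) (hE 3)) (hE 4)

/-- The value only depends on the leading coefficients. -/
private theorem lead_Tri (hl : S3Low0) (al be c i j : ℕ) (hc : c ≤ 5) (hD : aT c + 2 * i + 4 * j = al + be)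
    (u : Fin 9 → ZMod 3) (F : Fin 9 → Fn3 (3 ^ r) (3 ^ s))
    (hu : ∀ f, F f - u f • bb3 al be ∈ Wd3 ((al : ℤ) + be - 1)) :
    (QoT ^ i * LoT ^ j : Module.End (ZMod 3) (Fn3 (3 ^ r) (3 ^ s))) (phT c F) =
      (opp (Lf c u) * (dX - dY) ^ (2 * j) * (dX ^ (i + j) * dY ^ (i + j)) :
        Module.End (ZMod 3) (Fn3 (3 ^ r) (3 ^ s))) (bb3 al be) := by
  have hDY : Commute (dX : Module.End (ZMod 3) (Fn3 (3 ^ r) (3 ^ s))) dY := (hl r s).2.2.2.2.2.2.2.2.1
  have h1 := ph_low (r := r) (s := s) hl c hc ((al : ℤ) + be - 1) (fun f => F f - u f • bb3 al be) hu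
  rw [← ph_sub] at h1
  have h2 := (hl r s).1 _ _ _ _ (low_pow_Tri (r := r) (s := s) hl _ _ (low_Qo_Tri hl) i)
    (low_pow_Tri hl _ _ (low_Lo_Tri hl) j)
  have h3 := h2 _ _ h1
  have h4 : (al : ℤ) + be - 1 - (aT c : ℤ) - ((i : ℤ) * 2 + (j : ℤ) * 4) = -1 := by
    have : ((aT c + 2 * i + 4 * j : ℕ) : ℤ) = ((al + be : ℕ) : ℤ) := by rw [hD]
    push_cast at this
    linarith
  rw [h4] at h3
  have h5 := (hl r s).2.2.2.2.2.2.2.2.2.2.2.2.2 _ h3
  rw [map_sub] at h5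
  rw [sub_eq_zero.1 h5, ph_smul c hc, ← Module.End.mul_apply, form_Tri hl _
    (opp_comm dX (Commute.refl _) hDY _).symm (opp_comm dY hDY.symm (Commute.refl _) _).symm]

private theorem core_Tri (hl : S3Low0) (hx : TEx) (hi : TItr) (al be : ℕ) (u : Fin 9 → ZMod 3)
    (F : Fin 9 → Fn3 (3 ^ r) (3 ^ s)) (hRel : RelT F) (hF : ∀ f, F f ∈ Wd3 ((al : ℤ) + be))
    (hu : ∀ f, F f - u f • bb3 al be ∈ Wd3 ((al : ℤ) + be - 1)) :
    ∃ G : ℤ → ℤ → ZMod 3, SymH 3 (r + 1) (s + 1) G ∧ ∀ c i j : ℕ, c ≤ 5 →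
      (al + be < aT c + 2 * i + 4 * j → evT (3 ^ (r + 1)) G c i j = 0) ∧
      (aT c + 2 * i + 4 * j = al + be → evT (3 ^ (r + 1)) G c i j =
        ((opp (Lv c i u) * (dX - dY) ^ (2 * j) * (dX ^ (i + j) * dY ^ (i + j)) :
          Module.End (ZMod 3) (Fn3 (3 ^ r) (3 ^ s))) (bb3 al be)) 0 0) := by
  obtain ⟨G, hG, hGF⟩ := hx (ZMod 3) inferInstance r s F hRel
  have hdd : (al : ℤ) + (be : ℤ) = ((al + be : ℕ) : ℤ) := by push_cast; ring
  have hGF' : (fun f => (pfT G f : Fn3 (3 ^ r) (3 ^ s))) = F := funext hGF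
  refine ⟨G, hG, fun c i j hc => ?_⟩
  have hI := hi r s G (al + be) hG (fun f => by rw [hGF f, ← hdd]; exact hF f) c i j hc
  rw [hGF'] at hI
  refine ⟨hI.1, fun h => ?_⟩
  rw [hI.2 h, lead_Tri hl al be c i j hc h u F hu]
  by_cases h3 : c = 3 ∧ 1 ≤ i
  · obtain ⟨rfl, h1⟩ := h3
    obtain ⟨k, rfl⟩ : ∃ k, i = k + 1 := ⟨i - 1, by omega⟩
    rw [if_pos ⟨rfl, h1⟩]
    have e3 : aT 3 = 3 := rfl
    rw [e3] at h
    have e1 := lead_Tri (r := r) (s := s) hl al be 1 k (j + 1) (by norm_num) (by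
      have : aT 1 = 1 := rfl
      omega) u F hu
    have e2 := lead_Tri (r := r) (s := s) hl al be 2 k (j + 1) (by norm_num) (by
      have : aT 2 = 1 := rfl
      omega) u F hu
    rw [Nat.add_sub_cancel, map_sub, e1, e2]
    have e4 : Lv 3 (k + 1) u = L3 u := by
      unfold Lv
      rw [if_pos ⟨rfl, h1⟩]
    rw [e4, opp3 hl]
    have e5 : k + (j + 1) = k + 1 + j := by ring
    have e6 : 2 * (j + 1) = 2 + 2 * j := by ring
    rw [e5, e6, pow_add (dX - dY) 2 (2 * j)]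
    rw [add_mul, add_mul, LinearMap.add_apply, sub_mul, sub_mul, sub_mul, LinearMap.sub_apply, Pi.add_apply,
      Pi.add_apply]
    simp only [mul_assoc]
  · rw [if_neg h3, add_zero]
    have e4 : Lv c i u = Lf c u := by
      unfold Lv
      rw [if_neg h3]
    rw [e4]

end main

/-- The leading coefficients. -/
private def uu (c : ℕ) : Fin 9 → ZMod 3 :=
  if c = 0 then ![0, 1, -1, 0, 0, 0, 0, 0, 0]
  else if c = 1 then ![1, 0, 1, 0, 0, 0, 0, -1, -1]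
  else if c = 2 then ![0, 1, 1, 0, 1, 0, 0, 0, 0]
  else if c = 3 then ![1, 0, 0, 0, 0, -1, 0, -1, -1]
  else if c = 4 then ![1, 0, 0, 0, 0, 0, 0, 0, 0]
  else ![0, 0, 0, -1, 0, 0, 0, 0, 0]

private theorem sol_Tri (hd : TLed) (ho : TLeo) (r s c i j : ℕ) (hc : c ≤ 5) (hr : bT c + i + 3 * j < 3 ^ r)
    (hs : cT c + i + j < 3 ^ s) :
    ∃ F : Fin 9 → Fn3 (3 ^ r) (3 ^ s), RelT F ∧
      (∀ f, F f ∈ Wd3 (((bT c + i + 3 * j : ℕ) : ℤ) + ((cT c + i + j : ℕ) : ℤ))) ∧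
      ∀ f, F f - uu c f • bb3 (bT c + i + 3 * j) (cT c + i + j) ∈
        Wd3 (((bT c + i + 3 * j : ℕ) : ℤ) + ((cT c + i + j : ℕ) : ℤ) - 1) := by
  interval_cases c
  · exact hd r s _ _ (uu 0) hr hs (by
      have h1 : bT 0 = 2 := rfl
      have h2 : cT 0 = 0 := rfl
      rw [h1, h2]
      exact ⟨1 + i + 2 * j, by ring⟩) (by decide) (by decide) (by decide) (by decide)
  · exact ho r s _ _ (uu 1) hr hs (by
      have h1 : bT 1 = 1 := rfl
      have h2 : cT 1 = 0 := rfl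
      rw [h1, h2]
      exact ⟨i + 2 * j, by ring⟩) (by decide) (by decide) (by decide)
  · exact ho r s _ _ (uu 2) hr hs (by
      have h1 : bT 2 = 1 := rfl
      have h2 : cT 2 = 0 := rfl
      rw [h1, h2]
      exact ⟨i + 2 * j, by ring⟩) (by decide) (by decide) (by decide)
  · exact ho r s _ _ (uu 3) hr hs (by
      have h1 : bT 3 = 2 := rfl
      have h2 : cT 3 = 1 := rfl
      rw [h1, h2]
      exact ⟨1 + i + 2 * j, by ring⟩) (by decide) (by decide) (by decide)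
  · exact hd r s _ _ (uu 4) hr hs (by
      have h1 : bT 4 = 0 := rfl
      have h2 : cT 4 = 0 := rfl
      rw [h1, h2]
      exact ⟨i + 2 * j, by ring⟩) (by decide) (by decide) (by decide) (by decide)
  · exact hd r s _ _ (uu 5) hr hs (by
      have h1 : bT 5 = 0 := rfl
      have h2 : cT 5 = 0 := rfl
      rw [h1, h2]
      exact ⟨i + 2 * j, by ring⟩) (by decide) (by decide) (by decide) (by decide)

/-- The list for `c`, `b` (`b = true`: `i ≥ 1`). -/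
private def Lb (c : ℕ) (b : Bool) (u : Fin 9 → ZMod 3) : List (ZMod 3 × ℕ × ℕ) :=
  if c = 3 ∧ b = true then L3 u else Lf c u

private theorem Lv_eq (c i : ℕ) (u : Fin 9 → ZMod 3) : Lv c i u = Lb c (decide (1 ≤ i)) u := by
  unfold Lv Lb
  simp

/-- The diagonal lists. -/
private theorem diag1 : ∀ c ∈ Finset.range 6, ∀ b : Bool, ∀ t ∈ Lb c b (uu c),
    t.1 = 0 ∨ (t.2.1 + t.2.2 = bT c + cT c ∧ cT c ≤ t.2.2) := by decide

private theorem diag2 : ∀ c ∈ Finset.range 6, ∀ b : Bool,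
    ((Lb c b (uu c)).map fun t => if t.2.2 = cT c then t.1 else 0).sum ≠ 0 := by decide

private theorem z04 : ∀ b : Bool, ∀ t ∈ Lb 4 b (uu 0), t.1 = 0 := by decide

private theorem z05 : ∀ b : Bool, ∀ t ∈ Lb 5 b (uu 0), t.1 = 0 := by decide

private theorem z45 : ∀ b : Bool, ∀ t ∈ Lb 5 b (uu 4), t.1 = 0 := by decide

private theorem z12 : ∀ b : Bool, ∀ t ∈ Lb 2 b (uu 1), t.1 = 0 := by decide

private theorem z31 : ∀ b : Bool, ∀ t ∈ Lb 1 b (uu 3), t.1 = 0 := by decide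

private theorem z13 : ∀ t ∈ Lb 3 true (uu 1), t.1 = 0 ∨ 1 ≤ t.2.2 := by decide

private theorem z23 : ∀ t ∈ Lb 3 true (uu 2), t.1 = 0 ∨ 1 ≤ t.2.2 := by decide

private theorem z32 : ∀ b : Bool, ∀ t ∈ Lb 2 b (uu 3), t.1 = 0 ∨ 1 ≤ t.2.2 := by decide

private theorem z33 : ∀ b : Bool, ∀ t ∈ Lb 3 b (uu 3), t.1 = 0 ∨ 1 ≤ t.2.2 := by decide

private theorem off_Tri (c c' i j i' j' : ℕ) (hc : c ≤ 5) (hc' : c' ≤ 5)
    (h : aT c' + 2 * i' + 4 * j' = aT c + 2 * i + 4 * j)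
    (hcon : ¬ (i' + j' < i + j ∨ (i' + j' = i + j ∧ c' ≤ c))) :
    ∀ t ∈ Lb c' (decide (1 ≤ i')) (uu c), t.1 = 0 ∨ cT c + i + j < i' + j' + t.2.2 := by
  intro t ht
  have v0 : aT 0 = 2 := rfl
  have v1 : aT 1 = 1 := rfl
  have v2 : aT 2 = 1 := rfl
  have v3 : aT 3 = 3 := rfl
  have v4 : aT 4 = 0 := rfl
  have v5 : aT 5 = 0 := rfl
  have w1 : cT 1 = 0 := rfl
  have w2 : cT 2 = 0 := rfl
  have w3 : cT 3 = 1 := rfl
  by_cases hm : i + j < i' + j'
  · by_cases h3 : c = 3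
    · subst h3
      interval_cases c'
      · exfalso; omega
      · exact Or.inl (z31 _ t ht)
      · rcases z32 _ t ht with h1 | h1
        · exact Or.inl h1
        · exact Or.inr (by omega)
      · rcases z33 _ t ht with h1 | h1
        · exact Or.inl h1
        · exact Or.inr (by omega)
      · exfalso; omega
      · exfalso; omega
    · have hz : cT c = 0 := by
        unfold cT
        rw [if_neg h3]
      exact Or.inr (by omega)
  · have hcc : c < c' := by omega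
    have hmm : i' + j' = i + j := by omega
    interval_cases c
    · interval_cases c'
      · exfalso; omega
      · exfalso; omega
      · exfalso; omega
      · exact Or.inl (z04 _ t ht)
      · exact Or.inl (z05 _ t ht)
    · interval_cases c'
      · exact Or.inl (z12 _ t ht)
      · by_cases hi : 1 ≤ i'
        · rw [decide_eq_true hi] at ht
          rcases z13 t ht with h1 | h1
          · exact Or.inl h1
          · exact Or.inr (by omega)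
        · exfalso; omega
      · exfalso; omega
      · exfalso; omega
    · interval_cases c'
      · by_cases hi : 1 ≤ i'
        · rw [decide_eq_true hi] at ht
          rcases z23 t ht with h1 | h1
          · exact Or.inl h1
          · exact Or.inr (by omega)
        · exfalso; omega
      · exfalso; omega
      · exfalso; omega
    · interval_cases c'
      · exfalso; omega
      · exfalso; omega
    · have h5 : c' = 5 := by omega
      subst h5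
      exact Or.inl (z45 _ t ht)
    · exfalso; omega

/-- TRI. -/
theorem hTri (hl : S3Low0) (hb : S3Bb) (hd : TLed) (ho : TLeo) (hx : TEx) (hi : TItr) : TTri := by
  intro r s c i j hc hr hs
  obtain ⟨F, hRel, hF, hu⟩ := sol_Tri hd ho r s c i j hc hr hs
  obtain ⟨G, hG, hE⟩ := core_Tri hl hx hi _ _ (uu c) F hRel hF hu
  have hcr : c ∈ Finset.range 6 := Finset.mem_range.2 (by omega)
  have haT : ∀ c : ℕ, aT c = bT c + cT c := fun _ => rfl
  refine ⟨G, hG, ?_, ?_⟩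
  · rw [((hE c i j hc).2 (by rw [haT]; ring)), Lv_eq]
    have e1 : bT c + i + 3 * j = (i + j) + (2 * j + bT c) := by ring
    have e2 : cT c + i + j = (i + j) + cT c := by ring
    rw [e1, e2, valL hl hb _ j (i + j) (bT c) (cT c) (by omega) (by omega) (diag1 c hcr _)]
    exact diag2 c hcr _
  · intro c' i' j' hc' hne
    have hcr' : c' ∈ Finset.range 6 := Finset.mem_range.2 (by omega)
    rcases lt_trichotomy (aT c' + 2 * i' + 4 * j') (aT c + 2 * i + 4 * j) with h | h | h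
    · exact Or.inl h
    · right
      refine ⟨h, ?_⟩
      by_contra hcon
      apply hne
      rw [((hE c' i' j' hc').2 (by rw [h, haT]; ring)), Lv_eq,
        killL hl hb _ _ _ _ _ hr hs (off_Tri c c' i j i' j' hc hc' h hcon)]
      rfl
    · exact absurd ((hE c' i' j' hc').1 (by rw [haT c] at h; omega)) hne

end Pool.Agent.Helper22.T53
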